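import Mathlib
import Pool.Agent.H788R2.Trunc3

set_option autoImplicit false

namespace Pool.Agent.Results.MP_65850b_an.TallZeros

open MeasureTheory

/-- The Riemann kernel: the sum over `n ≥ 1` of
`(2 π² n⁴ e^{9t} - 3 π n² e^{5t}) exp (-π n² e^{4t})` (the index is shifted by one). -/
noncomputable def Phi (t : ℝ) : ℝ :=
  ∑' n : ℕ, (2 * ((n : ℝ) + 1) ^ 4 * Real.pi ^ 2 * Real.exp (9 * t)
    - 3 * ((n : ℝ) + 1) ^ 2 * Real.pi * Real.exp (5 * t)) *
      Real.exp (-(((n : ℝ) + 1) ^ 2 * Real.pi * Real.exp (4 * t)))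

/-- The truncated cosine transform `H_R z = ∫_0^R Φ(t) cos (z t) dt`. -/
noncomputable def H (R : ℝ) (z : ℂ) : ℂ :=
  ∫ t in (0 : ℝ)..R, ((Phi t : ℝ) : ℂ) * Complex.cos (z * t)

/-- Sanity: the series defining the kernel converges, the kernel is continuous and positive, and
`H_R` is entire. -/
lemma sanity : (∀ t : ℝ, Summable fun n : ℕ =>
    (2 * ((n : ℝ) + 1) ^ 4 * Real.pi ^ 2 * Real.exp (9 * t)
    - 3 * ((n : ℝ) + 1) ^ 2 * Real.pi * Real.exp (5 * t)) *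
      Real.exp (-(((n : ℝ) + 1) ^ 2 * Real.pi * Real.exp (4 * t)))) ∧
    Continuous Phi ∧ (∀ t : ℝ, 0 < Phi t) ∧ (∀ R : ℝ, Differentiable ℂ (H R)) :=
  ⟨Pool.Agent.Helper242.RK.summable_Phi, Pool.Agent.Helper242.RK.continuous_Phi,
    Pool.Agent.Helper242.RK.Phi_pos, Pool.Agent.H788R2.Trunc.differentiable_H⟩

/-- For every `R ≥ 5` the function `H_R` has a zero with imaginary part larger than
`2 π e^{4R}`. -/
theorem result : ∀ R : ℝ, 5 ≤ R → ∃ z : ℂ, H R z = 0 ∧ 2 * Real.pi * Real.exp (4 * R) < z.im :=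
  fun _ hR => Pool.Agent.H788R2.Trunc.main hR

/-- In particular no `R₀` as in the question exists: the answer to Q1 is negative. -/
lemma negative_answer : ¬ ∃ R₀ : ℝ, 0 < R₀ ∧ ∀ R : ℝ, R₀ ≤ R → ∀ z : ℂ, H R z = 0 → |z.im| < 1 := by
  rintro ⟨R₀, _, h⟩
  obtain ⟨z, hz, him⟩ := result (max R₀ 5) (le_max_right _ _)
  have h1 := h (max R₀ 5) (le_max_left _ _) z hz
  have h2 : 1 ≤ Real.exp (4 * max R₀ 5) := Real.one_le_exp (by
    have := le_max_right R₀ 5
    linarith)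
  have h3 := Real.pi_gt_three
  have h4 := le_abs_self z.im
  nlinarith

end Pool.Agent.Results.MP_65850b_an.TallZeros
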